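import Pool.Agent.H77.PUC.StmtsA

/-!
# Module AXB: absolute values of binomial coefficients
-/

universe u

namespace PUC

open Polynomial Filter Topology

theorem axb_norm {L : Type u} [NontriviallyNormedField L] [IsUltrametricDist L]
    {p : ℕ} (hp : p.Prime) (hlt : ‖(p : L)‖ < 1) {n : ℕ} (hn : ¬ p ∣ n) : ‖(n : L)‖ = 1 := by
  refine le_antisymm (IsUltrametricDist.norm_natCast_le_one L n) ?_
  have hco : IsCoprime (p : ℤ) (n : ℤ) := by
    rw [Nat.isCoprime_iff_coprime]
    exact (Nat.Prime.coprime_iff_not_dvd hp).2 hn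
  obtain ⟨a, b, hab⟩ := hco
  have h1 : (a : L) * (p : L) + (b : L) * (n : L) = 1 := by
    have := congrArg (fun z : ℤ => (z : L)) hab
    push_cast at this
    exact this
  have ha : ‖(a : L) * (p : L)‖ < 1 := by
    rw [norm_mul]
    calc ‖(a : L)‖ * ‖(p : L)‖ ≤ 1 * ‖(p : L)‖ :=
          mul_le_mul_of_nonneg_right (IsUltrametricDist.norm_intCast_le_one L a) (norm_nonneg _)
      _ < 1 := by rwa [one_mul]
  have hb : ‖(b : L) * (n : L)‖ ≤ ‖(n : L)‖ := by
    rw [norm_mul]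
    calc ‖(b : L)‖ * ‖(n : L)‖ ≤ 1 * ‖(n : L)‖ :=
          mul_le_mul_of_nonneg_right (IsUltrametricDist.norm_intCast_le_one L b) (norm_nonneg _)
      _ = ‖(n : L)‖ := one_mul _
  have h2 : (1 : ℝ) ≤ max ‖(a : L) * (p : L)‖ ‖(b : L) * (n : L)‖ := by
    calc (1 : ℝ) = ‖(1 : L)‖ := norm_one.symm
      _ = ‖(a : L) * (p : L) + (b : L) * (n : L)‖ := by rw [h1]
      _ ≤ _ := IsUltrametricDist.norm_add_le_max _ _
  rcases le_max_iff.1 h2 with h | h
  · exact absurd (lt_of_le_of_lt h ha) (lt_irrefl _)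
  · exact h.trans hb

theorem sAxb : SAxb.{u} := by
  intro L _ _ _ p hp hlt k
  have : Fact p.Prime := ⟨hp⟩
  constructor
  · intro d hd
    apply axb_norm hp hlt
    have h := Choose.choose_pow_mul_pow_mul_modEq_choose_nat (a := d) (b := 1) (p := p) (k := k)
    rw [mul_one, Nat.choose_one_right] at h
    intro hdiv
    exact hd ((Nat.ModEq.dvd_iff h dvd_rfl).1 hdiv)
  · have hne : Nat.choose (p ^ (k + 1)) (p ^ k) ≠ 0 :=
      (Nat.choose_pos (Nat.pow_le_pow_right hp.pos (Nat.le_succ k))).ne'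
    have hf : (Nat.choose (p ^ (k + 1)) (p ^ k)).factorization p = 1 := by
      rw [Nat.factorization_choose_prime_pow hp (Nat.pow_le_pow_right hp.pos (Nat.le_succ k))
        (pow_pos hp.pos k).ne', Nat.Prime.factorization_pow hp]
      simp
    obtain ⟨m, hm⟩ := (Nat.ordProj_dvd (Nat.choose (p ^ (k + 1)) (p ^ k)) p)
    have hm' : Nat.choose (p ^ (k + 1)) (p ^ k) = p * m := by
      rw [hf, pow_one] at hm
      exact hm
    have hpm : ¬ p ∣ m := by
      intro hd
      obtain ⟨c, rfl⟩ := hd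
      have h2 : p ^ 2 ∣ Nat.choose (p ^ (k + 1)) (p ^ k) := ⟨c, by rw [hm']; ring⟩
      have := (hp.pow_dvd_iff_le_factorization hne).1 h2
      omega
    rw [hm', Nat.cast_mul, norm_mul, axb_norm hp hlt hpm, mul_one]

end PUC
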