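import Pool.Agent.H77.PUC.StmtsB

/-!
# Module GNE: generic points exist
-/

universe u

namespace PUC

open Polynomial Filter Topology Metric

theorem gne_sub {K : Type u} [NontriviallyNormedField K] [IsUltrametricDist K] (x y : K) :
    ‖x - y‖ ≤ max ‖x‖ ‖y‖ := by
  rw [sub_eq_add_neg]
  simpa using IsUltrametricDist.norm_add_le_max x (-y)

theorem sGne : SGne.{u} := by
  classical
  intro K _ _ _ s ϖ S hϖ
  have hpos : 0 < ‖ϖ‖ := norm_pos_iff.2 hϖ
  -- the centres in the disc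
  set T : Finset K := insert s (S.filter fun t => ‖t - s‖ ≤ ‖ϖ‖) with hT
  have hTs : ∀ t ∈ T, ‖t - s‖ ≤ ‖ϖ‖ := by
    intro t ht
    rw [hT, Finset.mem_insert, Finset.mem_filter] at ht
    rcases ht with rfl | ht
    · simp
    · exact ht.2
  have hcard : 0 < T.card := Finset.card_pos.2 ⟨s, Finset.mem_insert_self _ _⟩
  -- a root of `∏ (X - t) = ϖ ^ n`
  set Q : K[X] := (∏ t ∈ T, (X - C t)) - C (ϖ ^ T.card) with hQ
  have hmon : (∏ t ∈ T, (X - C t) : K[X]).Monic := monic_prod_of_monic _ _ fun t _ => monic_X_sub_C t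
  have hdeg : (∏ t ∈ T, (X - C t) : K[X]).natDegree = T.card := by
    rw [natDegree_prod_of_monic _ _ fun t _ => monic_X_sub_C t]
    simp
  have hdegQ : Q.degree ≠ 0 := by
    have h1 : (∏ t ∈ T, (X - C t) : K[X]).degree = T.card := by
      rw [degree_eq_natDegree hmon.ne_zero, hdeg]
    have h2 : Q.degree = T.card := by
      rw [hQ, degree_sub_eq_left_of_degree_lt, h1]
      rw [h1]
      refine lt_of_le_of_lt degree_C_le ?_
      exact_mod_cast hcard
    rw [h2]
    exact_mod_cast hcard.ne'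
  obtain ⟨a, ha⟩ := IsAlgClosed.exists_root Q hdegQ
  have hprod : ∏ t ∈ T, (a - t) = ϖ ^ T.card := by
    have := ha
    rw [hQ, IsRoot.def, eval_sub, eval_C, eval_prod] at this
    simp only [eval_sub, eval_X, eval_C] at this
    exact sub_eq_zero.1 this
  have hnprod : ∏ t ∈ T, ‖a - t‖ = ‖ϖ‖ ^ T.card := by
    rw [← norm_prod, hprod, norm_pow]
  -- `‖a - s‖ ≤ ‖ϖ‖`
  have has : ‖a - s‖ ≤ ‖ϖ‖ := by
    by_contra hlt
    rw [not_le] at hlt
    have h1 : ∀ t ∈ T, ‖ϖ‖ < ‖a - t‖ := by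
      intro t ht
      have h2 : a - s = (a - t) + (t - s) := by ring
      by_contra hle
      rw [not_lt] at hle
      have h3 : ‖a - s‖ ≤ ‖ϖ‖ := by
        rw [h2]
        exact (IsUltrametricDist.norm_add_le_max _ _).trans (max_le hle (hTs t ht))
      exact absurd h3 (not_le.2 hlt)
    have h2 : ∏ _t ∈ T, ‖ϖ‖ < ∏ t ∈ T, ‖a - t‖ := by
      apply Finset.prod_lt_prod_of_nonempty
      · intro t _; exact hpos
      · exact h1
      · exact ⟨s, Finset.mem_insert_self _ _⟩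
    rw [Finset.prod_const, hnprod] at h2
    exact lt_irrefl _ h2
  have hle : ∀ t ∈ T, ‖a - t‖ ≤ ‖ϖ‖ := by
    intro t ht
    have h2 : a - t = (a - s) - (t - s) := by ring
    rw [h2]
    exact (gne_sub _ _).trans (max_le has (hTs t ht))
  have hge : ∀ t ∈ T, ‖ϖ‖ ≤ ‖a - t‖ := by
    intro t ht
    by_contra hlt
    rw [not_le] at hlt
    have h2 : ∏ t ∈ T, ‖a - t‖ < ∏ _t ∈ T, ‖ϖ‖ := by
      by_cases h0 : ∀ x ∈ T, 0 < ‖a - x‖
      · exact Finset.prod_lt_prod h0 hle ⟨t, ht, hlt⟩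
      · simp only [not_forall, not_lt] at h0
        obtain ⟨x, hx, hx0⟩ := h0
        have h3 : ‖a - x‖ = 0 := le_antisymm hx0 (norm_nonneg _)
        rw [Finset.prod_eq_zero hx h3, Finset.prod_const]
        exact pow_pos hpos _
    rw [Finset.prod_const, hnprod] at h2
    exact lt_irrefl _ h2
  refine ⟨a, has, fun t ht => ?_⟩
  by_cases h : ‖t - s‖ ≤ ‖ϖ‖
  · exact hge t (Finset.mem_insert_of_mem (Finset.mem_filter.2 ⟨ht, h⟩))
  · rw [not_le] at h
    by_contra hlt
    rw [not_le] at hlt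
    have h2 : t - s = (a - s) - (a - t) := by ring
    have h3 : ‖t - s‖ ≤ ‖ϖ‖ := by
      rw [h2]
      exact (gne_sub _ _).trans (max_le has hlt.le)
    exact absurd h3 (not_le.2 h)

end PUC
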