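import Pool.Agent.H77.PUC.StmtsB

/-!
# Modules LIM and FLT: norms of rational functions along a filter
-/

universe u

namespace PUC

open Polynomial Filter Topology Metric

section aux

variable {K : Type u} [NontriviallyNormedField K] [IsAlgClosed K]

theorem lim_norm_eval (Q : K[X]) (a : K) :
    ‖Q.eval a‖ = ‖Q.leadingCoeff‖ * (Q.roots.map fun β => ‖a - β‖).prod := by
  rw [(IsAlgClosed.splits Q).eval_eq_prod_roots a, norm_mul]
  congr 1
  have h := map_multiset_prod (normHom : K →*₀ ℝ) (Q.roots.map fun β => a - β)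
  rw [Multiset.map_map] at h
  exact h

theorem lim_ev (h : RatFunc K) (a : K) : ‖ev a h‖ = ‖h.num.eval a‖ / ‖h.denom.eval a‖ := by
  unfold ev RatFunc.eval
  rw [norm_div]
  rfl

theorem lim_pos (w : K → ℝ) (hw : ∀ β, 0 < w β) (s : Multiset K) : 0 < (s.map w).prod := by
  induction s using Multiset.induction_on with
  | empty => simp
  | cons a s ih =>
    rw [Multiset.map_cons, Multiset.prod_cons]
    exact mul_pos (hw a) ih

end aux

theorem sLim : SLim.{u} := by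
  intro K _ _ _ 𝓕 _ w hw h hh
  have hpol : ∀ Q : K[X], Q ≠ 0 →
      0 < ‖Q.leadingCoeff‖ * (Q.roots.map w).prod ∧
      Tendsto (fun a => ‖Q.eval a‖) 𝓕 (𝓝 (‖Q.leadingCoeff‖ * (Q.roots.map w).prod)) := by
    intro Q hQ
    refine ⟨mul_pos (norm_pos_iff.2 (leadingCoeff_ne_zero.2 hQ))
      (lim_pos w (fun β => (hw β).1) _), ?_⟩
    simp only [lim_norm_eval]
    refine Tendsto.const_mul _ ?_
    exact tendsto_multiset_prod Q.roots fun β _ => (hw β).2
  have hn := hpol h.num (RatFunc.num_ne_zero hh)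
  have hd := hpol h.denom (RatFunc.denom_ne_zero h)
  refine ⟨div_pos hn.1 hd.1, ?_, ?_⟩
  · simp only [lim_ev]
    exact hn.2.div hd.2 hd.1.ne'
  · have := hd.2.eventually (lt_mem_nhds hd.1)
    filter_upwards [this] with a ha
    intro h0
    rw [h0, norm_zero] at ha
    exact lt_irrefl _ ha

theorem sFlt : SFlt.{u} := by
  intro K _ _ _ 𝓕 _ c hc hβ h hh
  have hms : ∀ s : Multiset K, ∃ (C : ℝ) (m : ℕ), 0 < C ∧
      ∀ᶠ a in 𝓕, (s.map fun β => ‖a - β‖).prod = C * ‖a - c‖ ^ m := by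
    intro s
    induction s using Multiset.induction_on with
    | empty => exact ⟨1, 0, one_pos, by simp⟩
    | cons β s ih =>
      obtain ⟨C, m, hC, hev⟩ := ih
      rcases hβ β with ⟨C', hC', h'⟩ | h'
      · refine ⟨C' * C, m, mul_pos hC' hC, ?_⟩
        filter_upwards [hev, h'] with a h1 h2
        rw [Multiset.map_cons, Multiset.prod_cons, h1, h2, mul_assoc]
      · refine ⟨C, m + 1, hC, ?_⟩
        filter_upwards [hev, h'] with a h1 h2
        rw [Multiset.map_cons, Multiset.prod_cons, h1, h2, pow_succ]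
        ring
  have hpol : ∀ Q : K[X], Q ≠ 0 → ∃ (C : ℝ) (m : ℕ), 0 < C ∧
      ∀ᶠ a in 𝓕, ‖Q.eval a‖ = C * ‖a - c‖ ^ m := by
    intro Q hQ
    obtain ⟨C, m, hC, hev⟩ := hms Q.roots
    refine ⟨‖Q.leadingCoeff‖ * C, m,
      mul_pos (norm_pos_iff.2 (leadingCoeff_ne_zero.2 hQ)) hC, ?_⟩
    filter_upwards [hev] with a ha
    rw [lim_norm_eval, ha, mul_assoc]
  obtain ⟨C1, m1, hC1, h1⟩ := hpol h.num (RatFunc.num_ne_zero hh)
  obtain ⟨C2, m2, hC2, h2⟩ := hpol h.denom (RatFunc.denom_ne_zero h)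
  refine ⟨C1 / C2, (m1 : ℤ) - (m2 : ℤ), div_pos hC1 hC2, ?_⟩
  filter_upwards [h1, h2, hc] with a ha1 ha2 hac
  have hpos : 0 < ‖a - c‖ := norm_pos_iff.2 (sub_ne_zero.2 hac)
  refine ⟨?_, ?_⟩
  · intro h0
    rw [h0, norm_zero] at ha2
    exact absurd ha2 (mul_pos hC2 (pow_pos hpos _)).ne
  · rw [lim_ev, ha1, ha2, zpow_sub₀ hpos.ne', zpow_natCast, zpow_natCast]
    field_simp

end PUC
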